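import Pool.Agent.Lib.MP_a768d2_coG.Base

/-! # Perturbed grids have a small angle: assembling the proof -/

namespace Pool.Agent.Lib.MP_a768d2_coG

noncomputable section

theorem mono_bound {C A K c : ℝ} (hC : 1 ≤ C) (hA : 1 ≤ A) (hK : 1 ≤ K) (hc : c ≤ 10 ^ 6)
    (_hc0 : 0 ≤ c) {i j l : ℕ} (hi : i ≤ 10) (hj : j ≤ 2) (hl : l ≤ 5) :
    c * C ^ i * A ^ j * K ^ l ≤ 10 ^ 6 * C ^ 10 * A ^ 2 * K ^ 5 := by
  have h1 : C ^ i ≤ C ^ 10 := pow_le_pow_right₀ hC hi
  have h2 : A ^ j ≤ A ^ 2 := pow_le_pow_right₀ hA hj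
  have h3 : K ^ l ≤ K ^ 5 := pow_le_pow_right₀ hK hl
  have hC0 : 0 < C := by linarith
  have hA0 : 0 < A := by linarith
  have hK0 : 0 < K := by linarith
  gcongr

/-- the numerical core: a grid of size `≥ L / C` with mesh about `1 / L` and increments `A / L ^ 2` -/
theorem grid_core (C A L : ℝ) (p : ℕ → ℕ → ℂ) (u v : ℂ) (N K : ℕ) (hC : 1 ≤ C) (hA : 1 ≤ A)
    (hK : 1 ≤ K) (hL0 : 0 < L) (hN : L ≤ C * N) (hu : ‖u‖ ≤ C / L) (hv : ‖v‖ ≤ C / L)
    (hdet : 1 / (C * L ^ 2) ≤ |det2 u v|)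
    (hx : ∀ i j, i < N → j ≤ N → ‖p (i + 1) j - p i j - u‖ ≤ A / L ^ 2)
    (hy : ∀ i j, i ≤ N → j < N → ‖p i (j + 1) - p i j - v‖ ≤ A / L ^ 2)
    (hL : 10 ^ 6 * C ^ 10 * A ^ 2 * K ^ 5 ≤ L)
    (hang : Big p N (10 ^ 6 * C ^ 10 * A / (K * L ^ 2))) : False := by
  have hK' : (1 : ℝ) ≤ K := by exact_mod_cast hK
  have hC0 : 0 < C := by linarith
  have hA0 : 0 < A := by linarith
  have hK0 : (0 : ℝ) < K := by linarith
  have mb := fun (c : ℝ) (hc : c ≤ 10 ^ 6) (hc0 : 0 ≤ c) (i j l : ℕ) (hi : i ≤ 10) (hj : j ≤ 2)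
    (hl : l ≤ 5) => (mono_bound hC hA hK' hc hc0 hi hj hl).trans hL
  set α : ℝ := 10 ^ 6 * C ^ 10 * A / (K * L ^ 2) with hα
  have hα0 : 0 ≤ α := by positivity
  have hpi := Real.pi_pos
  have hpi4 := Real.pi_le_four
  -- a ≤ b
  have hab : A / L ^ 2 ≤ C / L := by
    rw [div_le_div_iff₀ (by positivity) hL0]
    have h1 := mb 1 (by norm_num) (by norm_num) 0 1 0 (by norm_num) (by norm_num) (by norm_num)
    have h2 : A ≤ L := by simpa using h1
    have h3 : L * 1 ≤ L * C := mul_le_mul_of_nonneg_left hC hL0.le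
    nlinarith
  have G : Grid p u v (A / L ^ 2) (C / L) N := ⟨by positivity, hab, hu, hv, hx, hy⟩
  have hΔ : 0 < |det2 u v| := lt_of_lt_of_le (by positivity) hdet
  have hAC : 12 * C ^ 2 * A ≤ L := by
    have h1 := mb 12 (by norm_num) (by norm_num) 2 1 0 (by norm_num) (by norm_num) (by norm_num)
    simpa using h1
  have h6 : 6 * (A / L ^ 2 * (C / L)) ≤ |det2 u v| := by
    refine le_trans ?_ hdet
    have h1 : 6 * (A / L ^ 2 * (C / L)) = (6 * C * A / L) / L ^ 2 := by field_simp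
    have h2 : 1 / (C * L ^ 2) = (1 / C) / L ^ 2 := by field_simp
    rw [h1, h2]
    apply div_le_div_of_nonneg_right _ (by positivity)
    rw [div_le_div_iff₀ hL0 hC0]
    nlinarith
  -- lower bound for u
  have hulow : 1 / (C ^ 2 * L) ≤ ‖u‖ := by
    have h1 := det2_le u v
    have h2 : ‖u‖ * ‖v‖ ≤ ‖u‖ * (C / L) := mul_le_mul_of_nonneg_left hv (norm_nonneg _)
    have h3 : 1 / (C * L ^ 2) ≤ ‖u‖ * (C / L) := hdet.trans (h1.trans h2)
    have h4 : 1 / (C ^ 2 * L) = 1 / (C * L ^ 2) / (C / L) := by field_simp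
    rw [h4, div_le_iff₀ (by positivity)]
    exact h3
  have hahalf : A / L ^ 2 ≤ 1 / (2 * C ^ 2 * L) := by
    rw [div_le_div_iff₀ (by positivity) (by positivity)]
    nlinarith
  have hhalf : 1 / (2 * C ^ 2 * L) < ‖u‖ := by
    refine lt_of_lt_of_le ?_ hulow
    apply div_lt_div_of_pos_left one_pos (by positivity)
    have : 0 < C ^ 2 * L := by positivity
    linarith
  have hua : A / L ^ 2 < ‖u‖ := lt_of_le_of_lt hahalf hhalf
  -- the choice of m
  set m : ℕ := min (N - 1) ⌊L⌋₊ with hm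
  have hLC : 4 * C ≤ L := by
    have h1 := mb 4 (by norm_num) (by norm_num) 1 0 0 (by norm_num) (by norm_num) (by norm_num)
    simpa using h1
  have hN1 : (1 : ℝ) ≤ N := by
    by_contra h
    have h1 : C * N < C * 1 := mul_lt_mul_of_pos_left (not_le.mp h) hC0
    linarith
  have hN1' : 1 ≤ N := by exact_mod_cast hN1
  have hm1 : L / (2 * C) ≤ m := by
    rw [hm, Nat.cast_min]
    apply le_min
    · rw [Nat.cast_sub hN1', Nat.cast_one, div_le_iff₀ (by positivity)]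
      nlinarith
    · have h1 := Nat.lt_floor_add_one L
      have h2 : L / (2 * C) ≤ L / 2 := by
        apply div_le_div_of_nonneg_left hL0.le (by norm_num)
        linarith
      linarith
  have hm2 : (m : ℝ) ≤ L := by
    have h1 : m ≤ ⌊L⌋₊ := min_le_right _ _
    exact (Nat.cast_le.mpr h1).trans (Nat.floor_le hL0.le)
  have hmN : m + 1 ≤ N := by
    have h1 : m ≤ N - 1 := min_le_left _ _
    omega
  have hK2m : K ^ 2 ≤ m := by
    have h1 := mb 2 (by norm_num) (by norm_num) 1 0 2 (by norm_num) (by norm_num) (by norm_num)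
    have h2 : 2 * C * (K : ℝ) ^ 2 ≤ L := by simpa using h1
    have h3 : (K : ℝ) ^ 2 ≤ m := by
      refine le_trans ?_ hm1
      rw [le_div_iff₀ (by positivity)]
      linarith
    exact_mod_cast h3
  have hKm : K ≤ m := le_trans (by nlinarith) hK2m
  -- the bound for A_k
  have hB : ∀ k ≤ K, |det2 (p k 0 - p 0 0) (p m 0 - p 0 0)| ≤ 14 * A * C ^ 2 / L ^ 2 := by
    intro k hk
    rcases Nat.eq_zero_or_pos k with h0 | hk1
    · rw [h0, sub_self]
      have h1 : det2 0 (p m 0 - p 0 0) = 0 := by simp [det2]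
      rw [h1, abs_zero]; positivity
    have hk' : (k : ℝ) ≤ K := by exact_mod_cast hk
    have hk1' : (1 : ℝ) ≤ k := by exact_mod_cast hk1
    have hk0 : (0 : ℝ) < k := by linarith
    have hs1 : 1 ≤ m / k := (Nat.one_le_div_iff hk1).mpr (hk.trans hKm)
    have hdiv := Nat.div_add_mod' m k
    have hmod := Nat.mod_lt m hk1
    have hAk2 : 512 * C ^ 5 * A * (k : ℝ) ^ 2 ≤ L := by
      have h1 := mb 512 (by norm_num) (by norm_num) 5 1 2 (by norm_num) (by norm_num) (by norm_num)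
      rw [pow_one] at h1
      refine le_trans ?_ h1
      gcongr
    have hf := noncross G hα0 hang k hk1 (1 / (64 * C ^ 4 * A * k)) (by positivity) hΔ h6
      (by
        have h1 : (1 / (C * L ^ 2)) ^ 2 ≤ |det2 u v| ^ 2 := pow_le_pow_left₀ (by positivity) hdet 2
        refine le_trans (le_of_eq ?_) h1
        field_simp)
      (by
        rw [le_div_iff₀ (by positivity)]
        have h1 : 4 * ((k : ℝ) + 1) * (C / L) * (64 * C ^ 4 * A * k) =
            (256 * C ^ 5 * A * (k * (k + 1))) / L := by field_simp; ring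
        rw [h1, div_le_one hL0]
        refine le_trans ?_ hAk2
        have h2 : (k : ℝ) * (k + 1) ≤ 2 * k ^ 2 := by nlinarith
        have h3 : 0 ≤ 256 * C ^ 5 * A := by positivity
        nlinarith)
      (by
        have h1 : α * (1 / (64 * C ^ 4 * A * k)) ^ 2 =
            (10 ^ 6 * C ^ 2) / (4096 * A * k ^ 2 * K * L ^ 2) := by
          rw [hα]; field_simp; norm_num
        rw [h1, le_div_iff₀ (by positivity)]
        have h2 : 8 * Real.pi * ((k : ℝ) + 1) ^ 2 * (A / L ^ 2 * (C / L)) *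
            (4096 * A * k ^ 2 * K * L ^ 2) =
            (32768 * Real.pi * C * A ^ 2 * ((k + 1) ^ 2 * k ^ 2 * K)) / L := by
          field_simp; ring
        rw [h2, div_le_iff₀ hL0]
        have h3 : ((k : ℝ) + 1) ^ 2 * k ^ 2 * K ≤ 4 * K ^ 5 := by
          have e1 : ((k : ℝ) + 1) ^ 2 ≤ (2 * K) ^ 2 := pow_le_pow_left₀ (by positivity) (by linarith) 2
          have e2 : (k : ℝ) ^ 2 ≤ K ^ 2 := pow_le_pow_left₀ hk0.le hk' 2
          calc ((k : ℝ) + 1) ^ 2 * (k : ℝ) ^ 2 * (K : ℝ) ≤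
                (2 * (K : ℝ)) ^ 2 * (K : ℝ) ^ 2 * (K : ℝ) := by gcongr
            _ = 4 * (K : ℝ) ^ 5 := by ring
        have h4 : 32768 * Real.pi * C * A ^ 2 * (((k : ℝ) + 1) ^ 2 * k ^ 2 * K) ≤
            32768 * 4 * C * A ^ 2 * (4 * K ^ 5) := by gcongr
        have h5 := mb 524288 (by norm_num) (by norm_num) 1 2 5 (by norm_num) (by norm_num)
          (by norm_num)
        rw [pow_one] at h5
        have h6 : (1 : ℝ) ≤ 10 ^ 6 * C ^ 2 := by
          have : (1 : ℝ) ≤ C ^ 2 := one_le_pow₀ hC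
          linarith
        have h7 : 1 * L ≤ 10 ^ 6 * C ^ 2 * L := mul_le_mul_of_nonneg_right h6 hL0.le
        linarith)
      (m / k) hs1 (by omega)
    have hAk : A / L ^ 2 * k ≤ C / L := by
      have h1 : A / L ^ 2 * k = (A * k / L) / L := by field_simp
      rw [h1]
      apply div_le_div_of_nonneg_right _ hL0.le
      rw [div_le_iff₀ hL0]
      have h2 := mb 1 (by norm_num) (by norm_num) 0 1 1 (by norm_num) (by norm_num) (by norm_num)
      have h3 : A * K ≤ L := by simpa using h2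
      have h4 : A * k ≤ A * K := mul_le_mul_of_nonneg_left hk' hA0.le
      nlinarith
    have hbb := base_bound G k m (m / k) (m % k) hk1 hs1 hdiv.symm hmod.le hmN
      (le_trans (Nat.pow_le_pow_left hk 2) hK2m) hAk hf
    have h1 : |det2 u v| ≤ C ^ 2 / L ^ 2 := by
      refine (det2_le' hu hv).trans (le_of_eq ?_)
      field_simp
    have h2 : 13 * (A / L ^ 2 * (C / L)) * m ≤ 13 * A * C / L ^ 2 := by
      calc 13 * (A / L ^ 2 * (C / L)) * m ≤ 13 * (A / L ^ 2 * (C / L)) * L := by gcongr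
        _ = _ := by field_simp
    refine hbb.trans ?_
    calc |det2 u v| + 13 * (A / L ^ 2 * (C / L)) * m ≤ C ^ 2 / L ^ 2 + 13 * A * C / L ^ 2 := by
          linarith
      _ = (C ^ 2 + 13 * A * C) / L ^ 2 := by ring
      _ ≤ 14 * A * C ^ 2 / L ^ 2 := by
          apply div_le_div_of_nonneg_right _ (by positivity)
          have e1 : C ^ 2 * 1 ≤ C ^ 2 * A := mul_le_mul_of_nonneg_left hA (by positivity)
          have e2 : A * C * 1 ≤ A * C * C := mul_le_mul_of_nonneg_left hC (by positivity)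
          nlinarith
  -- the far point
  have hw : 1 / (4 * C ^ 3) ≤ ‖p m 0 - p 0 0‖ := by
    have h1 : p m 0 - p 0 0 = m * u + E p u v m 0 := by simp only [E]; push_cast; ring
    have h2 := E_le G m 0 (by omega) (by omega)
    have h3 : ‖(m : ℂ) * u‖ = m * ‖u‖ := by rw [norm_mul, Complex.norm_natCast]
    have h4 : ‖(m : ℂ) * u‖ ≤ ‖p m 0 - p 0 0‖ + ‖E p u v m 0‖ := by
      have : (m : ℂ) * u = (p m 0 - p 0 0) - E p u v m 0 := by rw [h1]; ring
      calc ‖(m : ℂ) * u‖ = ‖(p m 0 - p 0 0) - E p u v m 0‖ := by rw [← this]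
        _ ≤ _ := norm_sub_le _ _
    have h5 : (m : ℝ) * (1 / (2 * C ^ 2 * L)) ≤ ‖p m 0 - p 0 0‖ := by
      have e1 : (m : ℝ) * (1 / (C ^ 2 * L)) ≤ m * ‖u‖ :=
        mul_le_mul_of_nonneg_left hulow (Nat.cast_nonneg m)
      have e2 : A / L ^ 2 * (m + (0 : ℕ)) ≤ m * (1 / (2 * C ^ 2 * L)) := by
        push_cast
        rw [add_zero, mul_comm]
        exact mul_le_mul_of_nonneg_left hahalf (Nat.cast_nonneg m)
      have e3 : (m : ℝ) * (1 / (C ^ 2 * L)) = m * (1 / (2 * C ^ 2 * L)) + m * (1 / (2 * C ^ 2 * L)) := by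
        field_simp; ring
      linarith
    refine le_trans ?_ h5
    have h6 : 1 / (4 * C ^ 3) = L / (2 * C) * (1 / (2 * C ^ 2 * L)) := by field_simp; norm_num
    rw [h6]
    exact mul_le_mul_of_nonneg_right hm1 (by positivity)
  have hQ : 16 * (K : ℝ) * (C / L) ≤ 1 / (4 * C ^ 3) := by
    rw [le_div_iff₀ (by positivity)]
    have h1 : 16 * (K : ℝ) * (C / L) * (4 * C ^ 3) = (64 * C ^ 4 * K) / L := by field_simp; ring
    rw [h1, div_le_one hL0]
    have h2 := mb 64 (by norm_num) (by norm_num) 4 0 1 (by norm_num) (by norm_num) (by norm_num)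
    simpa using h2
  have hfin := final_step G hang K m hK hKm (by omega) (14 * A * C ^ 2 / L ^ 2) (1 / (4 * C ^ 3))
    (by positivity) (by positivity) hB hw hQ hua
  have h1 : α * K * (1 / (4 * C ^ 3)) ^ 2 = 62500 * C ^ 4 * A / L ^ 2 := by
    rw [hα]; field_simp; norm_num
  have h2 : 4 * Real.pi * (14 * A * C ^ 2 / L ^ 2) ≤ 224 * C ^ 2 * A / L ^ 2 := by
    calc 4 * Real.pi * (14 * A * C ^ 2 / L ^ 2) ≤ 4 * 4 * (14 * A * C ^ 2 / L ^ 2) := by gcongr
      _ = _ := by ring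
  have h3 : 224 * C ^ 2 * A / L ^ 2 ≤ 62500 * C ^ 4 * A / L ^ 2 := by
    apply div_le_div_of_nonneg_right _ (by positivity)
    have e1 : C ^ 2 ≤ C ^ 4 := pow_le_pow_right₀ hC (by norm_num)
    have e2 : C ^ 2 * A ≤ C ^ 4 * A := mul_le_mul_of_nonneg_right e1 hA0.le
    nlinarith [show 0 < C ^ 4 * A by positivity]
  linarith

end

end Pool.Agent.Lib.MP_a768d2_coG
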