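import Pool.Agent.Lib.MP_a768d2_coG.Cross

/-! # Perturbed grids have a small angle: the base row and the pigeonhole principle -/

namespace Pool.Agent.Lib.MP_a768d2_coG

noncomputable section

variable {p : ℕ → ℕ → ℂ} {u v : ℂ} {a b : ℝ} {N : ℕ}

/-- transfer of the noncrossing bound to the base row -/
theorem base_bound (G : Grid p u v a b N) (k m s r : ℕ) (hk : 1 ≤ k) (hs1 : 1 ≤ s)
    (hm : m = s * k + r) (hr : r ≤ k) (hmN : m + 1 ≤ N) (hkk : k ^ 2 ≤ m) (hak : a * k ≤ b)
    (hf : |det2 (p k 1 - p 0 0) (p (s * k) s - p 0 0)| < |det2 u v|) :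
    |det2 (p k 0 - p 0 0) (p m 0 - p 0 0)| ≤ |det2 u v| + 13 * (a * b) * m := by
  have ha := G.ha
  have hb : 0 ≤ b := ha.trans G.hab
  have hab : 0 ≤ a * b := mul_nonneg ha hb
  have hskm : s * k ≤ m := by omega
  have hsm : s ≤ m := le_trans (by nlinarith) hskm
  have hkm : k ≤ m := le_trans (by nlinarith) hskm
  have hk' : (1 : ℝ) ≤ k := by exact_mod_cast hk
  have hskm' : (s : ℝ) * k ≤ m := by exact_mod_cast hskm
  have hsm' : (s : ℝ) ≤ m := by exact_mod_cast hsm
  have hkm' : (k : ℝ) ≤ m := by exact_mod_cast hkm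
  have hr' : (r : ℝ) ≤ k := by exact_mod_cast hr
  have hkk' : (k : ℝ) ^ 2 ≤ m := by exact_mod_cast hkk
  have hmr : (m : ℝ) = s * k + r := by exact_mod_cast hm
  have hs0 : (0 : ℝ) ≤ s := Nat.cast_nonneg _
  have hr0 : (0 : ℝ) ≤ r := Nat.cast_nonneg _
  have hm0 : (0 : ℝ) ≤ m := Nat.cast_nonneg _
  set E1 := E p u v k 1 with hE1
  set E2 := E p u v (s * k) s with hE2
  set E3 := E p u v k 0 with hE3
  set E4 := E p u v m 0 with hE4
  have b1 : ‖E1‖ ≤ a * (k + 1) := by simpa using E_le G k 1 (by omega) (by omega)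
  have b2 : ‖E2‖ ≤ a * (s * k + s) := by
    simpa using E_le G (s * k) s (by omega) (by omega)
  have b3 : ‖E3‖ ≤ a * k := by simpa using E_le G k 0 (by omega) (by omega)
  have b4 : ‖E4‖ ≤ a * m := by simpa using E_le G m 0 (by omega) (by omega)
  have b31 : ‖E3 - E1‖ ≤ a := by
    rw [norm_sub_rev]
    simpa using E_col G k 0 1 (by omega) (by omega)
  have b42 : ‖E4 - E2‖ ≤ a * (r + s) := by
    have := E_se G (s * k) 0 r s (by omega) (by omega)
    rw [zero_add, ← hm] at this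
    exact this
  have hkey : det2 (p k 0 - p 0 0) (p m 0 - p 0 0) =
      det2 (p k 1 - p 0 0) (p (s * k) s - p 0 0) + (k * det2 u (E4 - E2) + (- det2 v E2 +
      (r * det2 E3 u + (s * k * det2 (E3 - E1) u + (- (s * det2 E1 v) +
      (det2 E3 E4 + - det2 E1 E2)))))) := by
    have q1 : p k 0 - p 0 0 = k * u + E3 := by rw [hE3]; simp only [E]; push_cast; ring
    have q2 : p m 0 - p 0 0 = (s * k + r) * u + E4 := by
      rw [hE4]; simp only [E]; rw [hm]; push_cast; ring
    have q3 : p k 1 - p 0 0 = k * u + v + E1 := by rw [hE1]; simp only [E]; push_cast; ring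
    have q4 : p (s * k) s - p 0 0 = s * k * u + s * v + E2 := by
      rw [hE2]; simp only [E]; push_cast; ring
    rw [q1, q2, q3, q4]
    simp [det2]
    ring
  have c1 : |k * det2 u (E4 - E2)| ≤ 2 * (a * b * m) := by
    rw [abs_mul, Nat.abs_cast]
    have h1 := det2_le' G.hu b42
    calc (k : ℝ) * |det2 u (E4 - E2)| ≤ k * (b * (a * (r + s))) := by gcongr
      _ = a * b * (k * r + s * k) := by ring
      _ ≤ a * b * (m + m) := by
          apply mul_le_mul_of_nonneg_left _ hab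
          have : (k : ℝ) * r ≤ k * k := by gcongr
          nlinarith
      _ = _ := by ring
  have c2 : |- det2 v E2| ≤ 2 * (a * b * m) := by
    rw [abs_neg]
    have h1 := det2_le' G.hv b2
    calc |det2 v E2| ≤ b * (a * (s * k + s)) := h1
      _ = a * b * (s * k + s) := by ring
      _ ≤ a * b * (m + m) := by
          apply mul_le_mul_of_nonneg_left _ hab
          linarith
      _ = _ := by ring
  have c3 : |r * det2 E3 u| ≤ a * b * m := by
    rw [abs_mul, Nat.abs_cast]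
    have h1 := det2_le' b3 G.hu
    calc (r : ℝ) * |det2 E3 u| ≤ k * (a * k * b) := by gcongr
      _ = a * b * k ^ 2 := by ring
      _ ≤ a * b * m := mul_le_mul_of_nonneg_left hkk' hab
  have c4 : |s * k * det2 (E3 - E1) u| ≤ a * b * m := by
    rw [abs_mul, abs_mul, Nat.abs_cast, Nat.abs_cast]
    have h1 := det2_le' b31 G.hu
    calc (s : ℝ) * k * |det2 (E3 - E1) u| ≤ m * (a * b) := by gcongr
      _ = _ := by ring
  have c5 : |- (s * det2 E1 v)| ≤ 2 * (a * b * m) := by
    rw [abs_neg, abs_mul, Nat.abs_cast]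
    have h1 := det2_le' b1 G.hv
    calc (s : ℝ) * |det2 E1 v| ≤ s * (a * (k + 1) * b) := by gcongr
      _ = a * b * (s * k + s) := by ring
      _ ≤ a * b * (m + m) := by
          apply mul_le_mul_of_nonneg_left _ hab
          linarith
      _ = _ := by ring
  have c6 : |det2 E3 E4| ≤ a * b * m := by
    have h1 := det2_le' b3 b4
    calc |det2 E3 E4| ≤ a * k * (a * m) := h1
      _ ≤ b * (a * m) := mul_le_mul_of_nonneg_right hak (by positivity)
      _ = _ := by ring
  have c7 : |- det2 E1 E2| ≤ 4 * (a * b * m) := by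
    rw [abs_neg]
    have h1 := det2_le' b1 b2
    calc |det2 E1 E2| ≤ a * (k + 1) * (a * (s * k + s)) := h1
      _ ≤ (2 * b) * (a * (m + m)) := by
          apply mul_le_mul _ _ (by positivity) (by positivity)
          · have : a * (k + 1) ≤ a * (k + k) := mul_le_mul_of_nonneg_left (by linarith) ha
            linarith
          · exact mul_le_mul_of_nonneg_left (by linarith) ha
      _ = _ := by ring
  rw [hkey]
  refine (abs_add_le _ _).trans ?_
  have t1 := abs_add_le (k * det2 u (E4 - E2)) (- det2 v E2 +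
      (r * det2 E3 u + (s * k * det2 (E3 - E1) u + (- (s * det2 E1 v) +
      (det2 E3 E4 + - det2 E1 E2)))))
  have t2 := abs_add_le (- det2 v E2)
      (r * det2 E3 u + (s * k * det2 (E3 - E1) u + (- (s * det2 E1 v) +
      (det2 E3 E4 + - det2 E1 E2))))
  have t3 := abs_add_le (r * det2 E3 u) (s * k * det2 (E3 - E1) u + (- (s * det2 E1 v) +
      (det2 E3 E4 + - det2 E1 E2)))
  have t4 := abs_add_le (s * k * det2 (E3 - E1) u) (- (s * det2 E1 v) +
      (det2 E3 E4 + - det2 E1 E2))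
  have t5 := abs_add_le (- (s * det2 E1 v)) (det2 E3 E4 + - det2 E1 E2)
  have t6 := abs_add_le (det2 E3 E4) (- det2 E1 E2)
  linarith

/-- pigeonhole principle for `K + 1` reals -/
theorem pigeon (K : ℕ) (hK : 1 ≤ K) (r : ℕ → ℝ) (ρ : ℝ) (hr : ∀ k ≤ K, |r k| < ρ) :
    ∃ k k', k ≤ K ∧ k' ≤ K ∧ k ≠ k' ∧ |r k - r k'| ≤ 2 * ρ / K := by
  have hρ : 0 < ρ := lt_of_le_of_lt (abs_nonneg _) (hr 0 (Nat.zero_le _))
  have hK' : (0 : ℝ) < K := by exact_mod_cast (show 0 < K from hK)
  have hmap : ∀ k ∈ Finset.range (K + 1), ⌊(r k + ρ) * K / (2 * ρ)⌋₊ ∈ Finset.range K := by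
    intro k hk
    rw [Finset.mem_range] at hk ⊢
    have h1 := abs_lt.mp (hr k (by omega))
    rw [Nat.floor_lt (by have : 0 ≤ r k + ρ := by linarith
                         positivity)]
    rw [div_lt_iff₀ (by positivity)]
    have : r k + ρ < 2 * ρ := by linarith
    nlinarith
  obtain ⟨k, hk, k', hk', hne, heq⟩ := Finset.exists_ne_map_eq_of_card_lt_of_maps_to
    (by rw [Finset.card_range, Finset.card_range]; omega) hmap
  rw [Finset.mem_range] at hk hk'
  refine ⟨k, k', by omega, by omega, hne, ?_⟩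
  have h1 := abs_lt.mp (hr k (by omega))
  have h2 := abs_lt.mp (hr k' (by omega))
  have n1 : 0 ≤ (r k + ρ) * K / (2 * ρ) := by
    have : 0 ≤ r k + ρ := by linarith
    positivity
  have n2 : 0 ≤ (r k' + ρ) * K / (2 * ρ) := by
    have : 0 ≤ r k' + ρ := by linarith
    positivity
  have f1 := Nat.floor_le n1
  have f2 := Nat.lt_floor_add_one ((r k + ρ) * K / (2 * ρ))
  have f3 := Nat.floor_le n2
  have f4 := Nat.lt_floor_add_one ((r k' + ρ) * K / (2 * ρ))
  rw [heq] at f1 f2
  have h3 : |(r k + ρ) * K / (2 * ρ) - (r k' + ρ) * K / (2 * ρ)| ≤ 1 := by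
    rw [abs_le]; constructor <;> linarith
  have h4 : r k - r k' = ((r k + ρ) * K / (2 * ρ) - (r k' + ρ) * K / (2 * ρ)) * (2 * ρ / K) := by
    field_simp
    ring
  rw [h4, abs_mul, abs_of_pos (show 0 < 2 * ρ / K by positivity)]
  calc _ ≤ 1 * (2 * ρ / K) := mul_le_mul_of_nonneg_right h3 (by positivity)
    _ = _ := one_mul _

theorem inner_eq (z w : ℂ) : inner ℝ z w = z.re * w.re + z.im * w.im := by
  rw [Complex.inner]; simp; ring

theorem norm_sq_eq (z : ℂ) : ‖z‖ ^ 2 = z.re ^ 2 + z.im ^ 2 := by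
  rw [← Complex.normSq_eq_norm_sq, Complex.normSq_apply]; ring

theorem final_step (G : Grid p u v a b N) {α : ℝ} (hang : Big p N α) (K m : ℕ) (hK : 1 ≤ K)
    (hKm : K ≤ m) (hmN : m ≤ N) (B D : ℝ) (hB0 : 0 < B) (hD : 0 < D)
    (hB : ∀ k ≤ K, |det2 (p k 0 - p 0 0) (p m 0 - p 0 0)| ≤ B)
    (hw : D ≤ ‖p m 0 - p 0 0‖) (hQ : 16 * K * b ≤ D) (hua : a < ‖u‖) :
    α * K * D ^ 2 < 4 * Real.pi * B := by
  have ha := G.ha
  have hb : 0 ≤ b := ha.trans G.hab
  have hK' : (0 : ℝ) < K := by exact_mod_cast (show 0 < K from hK)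
  set w : ℕ → ℂ := fun k => p k 0 - p m 0 with hwdef
  have hw0 : D ≤ ‖w 0‖ := by
    simp only [hwdef]; rw [norm_sub_rev]; exact hw
  have hw00 : 0 < ‖w 0‖ := lt_of_lt_of_le hD hw0
  have hQn : ∀ k ≤ K, ‖w k - w 0‖ ≤ ‖w 0‖ / 8 := by
    intro k hk
    have hk' : (k : ℝ) ≤ K := by exact_mod_cast hk
    have h1 : w k - w 0 = k * u + E p u v k 0 := by
      simp only [hwdef, E]; push_cast; ring
    have h2 := E_le G k 0 (by omega) (by omega)
    have h3 : ‖(k : ℂ) * u‖ ≤ k * b := by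
      rw [norm_mul, Complex.norm_natCast]
      exact mul_le_mul_of_nonneg_left G.hu (Nat.cast_nonneg k)
    rw [h1]
    refine (norm_add_le _ _).trans ?_
    have h4 : a * (k + (0 : ℕ)) ≤ b * k := by
      push_cast
      rw [add_zero]
      exact mul_le_mul_of_nonneg_right G.hab (Nat.cast_nonneg k)
    have h5 : (k : ℝ) * b ≤ K * b := mul_le_mul_of_nonneg_right hk' hb
    linarith
  have hI : ∀ k ≤ K, ‖w 0‖ ^ 2 / 2 ≤ inner ℝ (w 0) (w k) := by
    intro k hk
    have h1 : inner ℝ (w 0) (w k) = ‖w 0‖ ^ 2 + inner ℝ (w 0) (w k - w 0) := by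
      have h0 : w k = w 0 + (w k - w 0) := by ring
      calc inner ℝ (w 0) (w k) = inner ℝ (w 0) (w 0 + (w k - w 0)) := by rw [← h0]
        _ = _ := by rw [inner_add_right, real_inner_self_eq_norm_sq]
    have h2 := abs_le.mp (abs_real_inner_le_norm (w 0) (w k - w 0))
    have h3 : ‖w 0‖ * ‖w k - w 0‖ ≤ ‖w 0‖ * (‖w 0‖ / 8) :=
      mul_le_mul_of_nonneg_left (hQn k hk) hw00.le
    nlinarith
  have hA : ∀ k, det2 (w 0) (w k) = det2 (p k 0 - p 0 0) (p m 0 - p 0 0) := by
    intro k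
    simp only [hwdef, det2, Complex.sub_re, Complex.sub_im]; ring
  set r : ℕ → ℝ := fun k => det2 (w 0) (w k) / inner ℝ (w 0) (w k) with hr
  have hIpos : ∀ k ≤ K, 0 < inner ℝ (w 0) (w k) := fun k hk =>
    lt_of_lt_of_le (by positivity) (hI k hk)
  have hrb : ∀ k ≤ K, |r k| < 4 * B / D ^ 2 := by
    intro k hk
    simp only [hr]
    rw [abs_div, abs_of_pos (hIpos k hk), hA]
    have h1 : D ^ 2 ≤ ‖w 0‖ ^ 2 := pow_le_pow_left₀ hD.le hw0 2
    have h2 : D ^ 2 / 2 ≤ inner ℝ (w 0) (w k) := le_trans (by linarith) (hI k hk)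
    calc |det2 (p k 0 - p 0 0) (p m 0 - p 0 0)| / inner ℝ (w 0) (w k)
        ≤ B / (D ^ 2 / 2) := div_le_div₀ hB0.le (hB k hk) (by positivity) h2
      _ = 2 * B / D ^ 2 := by field_simp
      _ < 4 * B / D ^ 2 := by
          apply div_lt_div_of_pos_right _ (by positivity)
          linarith
  obtain ⟨k, k', hk, hk', hne, hdiff⟩ := pigeon K hK r (4 * B / D ^ 2) hrb
  have hwk : ∀ k ≤ K, ‖w 0‖ * (7 / 8) ≤ ‖w k‖ := by
    intro k hk
    have h1 : w 0 = w k - (w k - w 0) := by ring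
    have h2 : ‖w 0‖ ≤ ‖w k‖ + ‖w k - w 0‖ := by
      calc ‖w 0‖ = ‖w k - (w k - w 0)‖ := by rw [← h1]
        _ ≤ _ := norm_sub_le _ _
    have := hQn k hk
    linarith
  have hclose : ‖w k' - w k‖ ≤ ‖w 0‖ / 4 := by
    have h1 : w k' - w k = (w k' - w 0) - (w k - w 0) := by ring
    rw [h1]
    have := norm_sub_le (w k' - w 0) (w k - w 0)
    have := hQn k hk
    have := hQn k' hk'
    linarith
  have hlt : ‖w k' - w k‖ < ‖w k‖ := by
    have := hwk k hk
    linarith
  have hwk0 : 0 < ‖w k‖ := by have := hwk k hk; linarith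
  have hwk0' : 0 < ‖w k'‖ := by have := hwk k' hk'; linarith
  have hle := angle_le hlt (norm_pos_iff.mp hwk0')
  -- the identity
  have hid : ‖w 0‖ ^ 2 * det2 (w k) (w k') = inner ℝ (w 0) (w k) * inner ℝ (w 0) (w k') *
      (r k' - r k) := by
    have h1 : inner ℝ (w 0) (w k) * inner ℝ (w 0) (w k') * (r k' - r k) =
        inner ℝ (w 0) (w k) * det2 (w 0) (w k') - inner ℝ (w 0) (w k') * det2 (w 0) (w k) := by
      simp only [hr]
      have e1 := (hIpos k hk).ne'
      have e2 := (hIpos k' hk').ne'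
      field_simp
    rw [h1, norm_sq_eq, inner_eq, inner_eq]
    simp only [det2]
    ring
  have hdet : |det2 (w k) (w k')| ≤ ‖w k‖ * ‖w k'‖ * |r k' - r k| := by
    have h1 : ‖w 0‖ ^ 2 * |det2 (w k) (w k')| ≤ ‖w 0‖ ^ 2 * (‖w k‖ * ‖w k'‖ * |r k' - r k|) := by
      calc ‖w 0‖ ^ 2 * |det2 (w k) (w k')| = |‖w 0‖ ^ 2 * det2 (w k) (w k')| := by
            rw [abs_mul, abs_of_nonneg (by positivity : 0 ≤ ‖w 0‖ ^ 2)]
        _ = |inner ℝ (w 0) (w k)| * |inner ℝ (w 0) (w k')| * |r k' - r k| := by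
            rw [hid, abs_mul, abs_mul]
        _ ≤ (‖w 0‖ * ‖w k‖) * (‖w 0‖ * ‖w k'‖) * |r k' - r k| := by
            gcongr
            · exact abs_real_inner_le_norm _ _
            · exact abs_real_inner_le_norm _ _
        _ = _ := by ring
    exact le_of_mul_le_mul_left h1 (by positivity)
  have hangle : InnerProductGeometry.angle (w k) (w k') ≤ Real.pi / 2 * |r k' - r k| := by
    refine hle.trans ?_
    apply mul_le_mul_of_nonneg_left _ (by positivity)
    rw [div_le_iff₀ (by positivity)]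
    linarith
  -- distinctness
  have hdist : ∀ i d : ℕ, 1 ≤ d → i + d ≤ N → p (i + d) 0 ≠ p i 0 := by
    intro i d hd hid heq
    have h1 := E_row G i 0 d hid (by omega)
    have h2 : E p u v (i + d) 0 - E p u v i 0 = - (d * u) := by
      simp only [E]; rw [heq]; push_cast; ring
    rw [h2, norm_neg, norm_mul, Complex.norm_natCast] at h1
    have hd' : (0 : ℝ) < d := by exact_mod_cast (show 0 < d from hd)
    nlinarith
  have hkk' : p k 0 ≠ p k' 0 := by
    rcases lt_or_gt_of_ne hne with h | h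
    · have := hdist k (k' - k) (by omega) (by omega)
      rw [Nat.add_sub_cancel' h.le] at this
      exact this.symm
    · have := hdist k' (k - k') (by omega) (by omega)
      rw [Nat.add_sub_cancel' h.le] at this
      exact this
  have hkm1 : p k 0 ≠ p m 0 := by
    intro h
    have : w k = 0 := by simp only [hwdef]; rw [h, sub_self]
    rw [this, norm_zero] at hwk0
    exact lt_irrefl _ hwk0
  have hkm2 : p m 0 ≠ p k' 0 := by
    intro h
    have : w k' = 0 := by simp only [hwdef]; rw [h, sub_self]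
    rw [this, norm_zero] at hwk0'
    exact lt_irrefl _ hwk0'
  have hfin := hang k 0 m 0 k' 0 (by omega) (by omega) hmN (by omega) (by omega) (by omega)
    hkm1 hkm2 hkk'
  have hfin' : α < InnerProductGeometry.angle (w k) (w k') := hfin
  have h1 : α < Real.pi / 2 * (2 * (4 * B / D ^ 2) / K) := by
    refine lt_of_lt_of_le hfin' (hangle.trans ?_)
    apply mul_le_mul_of_nonneg_left _ (by positivity)
    rw [abs_sub_comm]
    exact hdiff
  have h2 : Real.pi / 2 * (2 * (4 * B / D ^ 2) / K) * (K * D ^ 2) = 4 * Real.pi * B := by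
    field_simp
  calc α * K * D ^ 2 = α * (K * D ^ 2) := by ring
    _ < Real.pi / 2 * (2 * (4 * B / D ^ 2) / K) * (K * D ^ 2) :=
        mul_lt_mul_of_pos_right h1 (by positivity)
    _ = _ := h2

end

end Pool.Agent.Lib.MP_a768d2_coG
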