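import Pool.Agent.Lib.MP_a768d2_coG.Grid

/-! # Perturbed grids have a small angle: two rows do not cross -/

namespace Pool.Agent.Lib.MP_a768d2_coG

noncomputable section

variable {p : ℕ → ℕ → ℂ} {u v : ℂ} {a b : ℝ} {N : ℕ}

/-- all angles of the grid points exceed `α` -/
def Big (p : ℕ → ℕ → ℂ) (N : ℕ) (α : ℝ) : Prop :=
  ∀ i₁ j₁ i₂ j₂ i₃ j₃ : ℕ, i₁ ≤ N → j₁ ≤ N → i₂ ≤ N → j₂ ≤ N → i₃ ≤ N → j₃ ≤ N →
    p i₁ j₁ ≠ p i₂ j₂ → p i₂ j₂ ≠ p i₃ j₃ → p i₁ j₁ ≠ p i₃ j₃ →
    α < EuclideanGeometry.angle (p i₁ j₁) (p i₂ j₂) (p i₃ j₃)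

theorem det2_add_right (z w t : ℂ) : det2 z (w + t) = det2 z w + det2 z t := by
  simp only [det2, Complex.add_re, Complex.add_im]; ring

theorem det2_add_left (z w t : ℂ) : det2 (z + w) t = det2 z t + det2 w t := by
  simp only [det2, Complex.add_re, Complex.add_im]; ring

theorem det2_sub_right (z w t : ℂ) : det2 z (w - t) = det2 z w - det2 z t := by
  simp only [det2, Complex.sub_re, Complex.sub_im]; ring

theorem det2_sub_left (z w t : ℂ) : det2 (z - w) t = det2 z t - det2 w t := by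
  simp only [det2, Complex.sub_re, Complex.sub_im]; ring

theorem det2_self (z : ℂ) : det2 z z = 0 := by
  simp only [det2]; ring

theorem det2_nat_right (z w : ℂ) (m : ℕ) : det2 z (m * w) = m * det2 z w := by
  simp [det2]; ring

theorem det2_nat_left (z w : ℂ) (m : ℕ) : det2 (m * z) w = m * det2 z w := by
  simp [det2]; ring

theorem det2_le' {z w : ℂ} {s t : ℝ} (hz : ‖z‖ ≤ s) (hw : ‖w‖ ≤ t) : |det2 z w| ≤ s * t :=
  (det2_le z w).trans (mul_le_mul hz hw (norm_nonneg _) ((norm_nonneg _).trans hz))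

theorem Y_norm (G : Grid p u v a b N) (k : ℕ) (hk : 1 ≤ k) (hkN : k ≤ N) :
    ‖p k 1 - p 0 0‖ ≤ 2 * (k + 1) * b := by
  have h1 : p k 1 - p 0 0 = k * u + v + E p u v k 1 := by simp only [E]; push_cast; ring
  have h2 := E_le G k 1 hkN (by omega)
  have h3 : ‖(k : ℂ) * u‖ ≤ k * b := by
    rw [norm_mul, Complex.norm_natCast]
    exact mul_le_mul_of_nonneg_left G.hu (Nat.cast_nonneg k)
  rw [h1]
  refine (norm_add_le _ _).trans ?_
  have h4 := norm_add_le ((k : ℂ) * u) v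
  have h5 := G.hv
  have h6 : a * (k + (1 : ℕ)) ≤ b * (k + 1) := by
    push_cast
    exact mul_le_mul_of_nonneg_right G.hab (by positivity)
  linarith

theorem f_step (G : Grid p u v a b N) (k s : ℕ) (hk : 1 ≤ k) (hs : (s + 1) * k ≤ N) :
    |det2 (p k 1 - p 0 0) (p ((s + 1) * k) (s + 1) - p 0 0) -
      det2 (p k 1 - p 0 0) (p (s * k) s - p 0 0)| ≤ 4 * (k + 1) ^ 2 * (a * b) := by
  have hkN : k ≤ N := le_trans (by nlinarith) hs
  have hsN : s + 1 ≤ N := le_trans (by nlinarith) hs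
  have hY := Y_norm G k hk hkN
  have h1 : det2 (p k 1 - p 0 0) (p ((s + 1) * k) (s + 1) - p 0 0) -
      det2 (p k 1 - p 0 0) (p (s * k) s - p 0 0) =
      det2 (p k 1 - p 0 0) ((E p u v (s * k + k) (s + 1) - E p u v (s * k) s) - E p u v k 1) := by
    have h2 : (p ((s + 1) * k) (s + 1) - p 0 0) =
        (p (s * k) s - p 0 0) + ((p k 1 - p 0 0) +
        ((E p u v (s * k + k) (s + 1) - E p u v (s * k) s) - E p u v k 1)) := by
      have h3 : (s + 1) * k = s * k + k := by ring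
      rw [h3]
      simp only [E]; push_cast; ring
    rw [h2, det2_add_right, det2_add_right, det2_self]
    ring
  rw [h1]
  have h4 := E_ne G (s * k) s k 1 (by nlinarith) hsN
  have h5 := E_le G k 1 hkN (by omega)
  have h6 : ‖(E p u v (s * k + k) (s + 1) - E p u v (s * k) s) - E p u v k 1‖ ≤ 2 * (a * (k + 1)) := by
    refine (norm_sub_le _ _).trans ?_
    push_cast at h4 h5
    linarith
  refine (det2_le' hY h6).trans (le_of_eq ?_)
  ring

theorem f_le (G : Grid p u v a b N) (k : ℕ) (hk : 1 ≤ k) (s : ℕ) (hs1 : 1 ≤ s) (hs : s * k ≤ N) :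
    |det2 (p k 1 - p 0 0) (p (s * k) s - p 0 0)| ≤ s * (4 * (k + 1) ^ 2 * (a * b)) := by
  have hab : 0 ≤ a * b := mul_nonneg G.ha (G.ha.trans G.hab)
  induction s, hs1 using Nat.le_induction with
  | base =>
    rw [one_mul, det2_self, abs_zero]
    positivity
  | succ s hs1 ih =>
    have h1 := ih (le_trans (by nlinarith) hs)
    have h2 := f_step G k s hk hs
    have h3 := abs_sub_abs_le_abs_sub (det2 (p k 1 - p 0 0) (p ((s + 1) * k) (s + 1) - p 0 0))
      (det2 (p k 1 - p 0 0) (p (s * k) s - p 0 0))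
    push_cast
    linarith

/-- the final contradiction at a crossing -/
theorem cross_end (G : Grid p u v a b N) {α : ℝ} (hα : 0 ≤ α) (hang : Big p N α)
    (k : ℕ) (hk : 1 ≤ k) (R : ℝ) (hR0 : 0 < R) (hΔ : 0 < |det2 u v|)
    (h6 : 6 * (a * b) ≤ |det2 u v|) (hR : 64 * k * (a * b) * b * R ≤ |det2 u v| ^ 2)
    (hR1 : 4 * (k + 1) * b ≤ R) (hR2 : 8 * Real.pi * (k + 1) ^ 2 * (a * b) ≤ α * R ^ 2)
    (s i0 : ℕ) (τ : ℝ) (hτ : τ = 1 ∨ τ = -1) (hs : 2 ≤ s) (hsk : s * k + 1 ≤ N)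
    (hi0 : (i0 : ℝ) = s * k + τ) (hi0N : i0 ≤ N)
    (he : ‖E p u v i0 s - E p u v (s * k) s‖ ≤ a)
    (hf : |det2 (p k 1 - p 0 0) (p (s * k) s - p 0 0) - τ * det2 u v| ≤ 4 * (k + 1) ^ 2 * (a * b))
    (hsκ : |det2 u v| ≤ s * (4 * (k + 1) ^ 2 * (a * b))) : False := by
  have hk' : (1 : ℝ) ≤ k := by exact_mod_cast hk
  have hs' : (2 : ℝ) ≤ s := by exact_mod_cast hs
  have hkN : k ≤ N := le_trans (by nlinarith) hsk
  have hsN : s ≤ N := le_trans (by nlinarith) hsk
  have hab0 : 0 < a * b := by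
    by_contra h
    have h1 : a * b ≤ 0 := not_lt.mp h
    have h2 : s * (4 * ((k:ℝ) + 1) ^ 2 * (a * b)) ≤ 0 := by
      apply mul_nonpos_of_nonneg_of_nonpos (by positivity)
      exact mul_nonpos_of_nonneg_of_nonpos (by positivity) h1
    linarith
  have hb0 : 0 ≤ b := G.ha.trans G.hab
  have hb : 0 < b := by
    rcases hb0.lt_or_eq with h | h
    · exact h
    · rw [← h, mul_zero] at hab0; exact absurd hab0 (lt_irrefl _)
  have hY := Y_norm G k hk hkN
  have hEk := E_le G k 1 hkN (by omega)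
  push_cast at hEk
  have hτ1 : |τ| = 1 := by rcases hτ with h | h <;> simp [h]
  have hτc : (i0 : ℂ) = s * k + (τ : ℂ) := by
    have : ((i0 : ℝ) : ℂ) = ((s * k + τ : ℝ) : ℂ) := by rw [hi0]
    push_cast at this
    exact this
  -- the displacement of z
  have hz : p i0 s - p 0 0 = (p (s * k) s - p 0 0) + ((τ : ℂ) * u +
      (E p u v i0 s - E p u v (s * k) s)) := by
    simp only [E, hτc]; push_cast; ring
  have hYu : det2 (p k 1 - p 0 0) u = - det2 u v + det2 (E p u v k 1) u := by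
    have h1 : p k 1 - p 0 0 = k * u + v + E p u v k 1 := by simp only [E]; push_cast; ring
    rw [h1, det2_add_left, det2_add_left, det2_nat_left, det2_self, det2_swap v u]
    ring
  have hτu : det2 (p k 1 - p 0 0) ((τ : ℂ) * u) = τ * det2 (p k 1 - p 0 0) u := by
    simp [det2]; ring
  have hdet : |det2 (p k 1 - p 0 0) (p i0 s - p 0 0)| ≤ 8 * (k + 1) ^ 2 * (a * b) := by
    rw [hz, det2_add_right, det2_add_right, hτu, hYu]
    have e1 := det2_le' hEk G.hu
    have e2 := det2_le' hY he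
    have e3 : |τ * det2 (E p u v k 1) u| ≤ a * (k + 1) * b := by
      rw [abs_mul, hτ1, one_mul]; exact e1
    have e4 : det2 (p k 1 - p 0 0) (p (s * k) s - p 0 0) +
        (τ * (-det2 u v + det2 (E p u v k 1) u) +
          det2 (p k 1 - p 0 0) (E p u v i0 s - E p u v (s * k) s)) =
        (det2 (p k 1 - p 0 0) (p (s * k) s - p 0 0) - τ * det2 u v) +
        (τ * det2 (E p u v k 1) u +
        det2 (p k 1 - p 0 0) (E p u v i0 s - E p u v (s * k) s)) := by ring
    rw [e4]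
    have e5 := abs_add_le (det2 (p k 1 - p 0 0) (p (s * k) s - p 0 0) - τ * det2 u v)
      (τ * det2 (E p u v k 1) u + det2 (p k 1 - p 0 0) (E p u v i0 s - E p u v (s * k) s))
    have e6 := abs_add_le (τ * det2 (E p u v k 1) u)
      (det2 (p k 1 - p 0 0) (E p u v i0 s - E p u v (s * k) s))
    have e7 : a * (k + 1) * b + 2 * (k + 1) * b * a ≤ 4 * (k + 1) ^ 2 * (a * b) := by
      have : 0 ≤ (a * b) * (k + 1) * (4 * (k + 1) - 3) := by
        apply mul_nonneg (by positivity); linarith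
      nlinarith
    linarith
  -- lower bound for the distance of z
  have hi0lb : (s : ℝ) * k / 2 ≤ i0 := by
    rw [hi0]
    have h1 : -1 ≤ τ := by rcases hτ with h | h <;> rw [h] <;> norm_num
    nlinarith
  have hsi0 : (s : ℝ) ≤ 2 * i0 := by nlinarith
  have hi00 : (0 : ℝ) ≤ i0 := Nat.cast_nonneg _
  have hEz := E_le G i0 s hi0N hsN
  have hzv : det2 (p i0 s - p 0 0) v = i0 * det2 u v + det2 (E p u v i0 s) v := by
    have h1 : p i0 s - p 0 0 = i0 * u + s * v + E p u v i0 s := by simp only [E]; ring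
    rw [h1, det2_add_left, det2_add_left, det2_nat_left, det2_nat_left, det2_self]
    ring
  have hzb : i0 * |det2 u v| / 2 ≤ ‖p i0 s - p 0 0‖ * b := by
    have e1 := det2_le' (le_refl ‖p i0 s - p 0 0‖) G.hv
    have e2 := det2_le' hEz G.hv
    rw [hzv] at e1
    have e3 : |(i0 : ℝ) * det2 u v| ≤ |i0 * det2 u v + det2 (E p u v i0 s) v| +
        |det2 (E p u v i0 s) v| := by
      have := abs_sub (i0 * det2 u v + det2 (E p u v i0 s) v) (det2 (E p u v i0 s) v)
      rwa [add_sub_cancel_right] at this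
    rw [abs_mul, Nat.abs_cast] at e3
    have e4 : a * (i0 + s) * b ≤ i0 * |det2 u v| / 2 := by
      have e5 : (a * b) * (i0 + s) ≤ (a * b) * (3 * i0) :=
        mul_le_mul_of_nonneg_left (by linarith) hab0.le
      have e6 : i0 * (6 * (a * b)) ≤ i0 * |det2 u v| := mul_le_mul_of_nonneg_left h6 hi00
      nlinarith
    linarith
  have hRz : R ≤ ‖p i0 s - p 0 0‖ := by
    have e1 : (s : ℝ) * k * |det2 u v| / 4 ≤ ‖p i0 s - p 0 0‖ * b := by
      have : (s : ℝ) * k / 2 * |det2 u v| ≤ i0 * |det2 u v| :=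
        mul_le_mul_of_nonneg_right hi0lb hΔ.le
      linarith
    set κ : ℝ := 4 * (k + 1) ^ 2 * (a * b) with hκ
    have hκ0 : 0 ≤ κ := by positivity
    have e2 : (s : ℝ) * k * |det2 u v| / 4 * κ ≤ ‖p i0 s - p 0 0‖ * b * κ :=
      mul_le_mul_of_nonneg_right e1 hκ0
    have e3 : |det2 u v| ^ 2 * k / 4 ≤ (s : ℝ) * k * |det2 u v| / 4 * κ := by
      have := mul_le_mul_of_nonneg_left hsκ (show 0 ≤ (k : ℝ) * |det2 u v| / 4 by positivity)
      linarith
    have e4 : κ ≤ 16 * k ^ 2 * (a * b) := by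
      rw [hκ]
      apply mul_le_mul_of_nonneg_right _ hab0.le
      nlinarith
    have e5 : ‖p i0 s - p 0 0‖ * b * κ ≤ ‖p i0 s - p 0 0‖ * b * (16 * k ^ 2 * (a * b)) :=
      mul_le_mul_of_nonneg_left e4 (by positivity)
    have e6 : 64 * k * (a * b) * b * R * k / 4 ≤ |det2 u v| ^ 2 * k / 4 := by
      have := mul_le_mul_of_nonneg_right hR (show (0:ℝ) ≤ k / 4 by positivity)
      linarith
    have e7 : (16 * k ^ 2 * (a * b) * b) * R ≤ (16 * k ^ 2 * (a * b) * b) * ‖p i0 s - p 0 0‖ := by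
      calc (16 * k ^ 2 * (a * b) * b) * R = 64 * k * (a * b) * b * R * k / 4 := by ring
        _ ≤ |det2 u v| ^ 2 * k / 4 := e6
        _ ≤ _ := e3
        _ ≤ _ := e2
        _ ≤ _ := e5
        _ = _ := by ring
    exact le_of_mul_le_mul_left e7 (by positivity)
  -- contradiction
  have hPQ : p 0 0 ≠ p i0 s := by
    intro h
    rw [← h, sub_self, norm_zero] at hRz
    linarith
  have hnPQ : ‖p 0 0 - p i0 s‖ = ‖p i0 s - p 0 0‖ := norm_sub_rev _ _
  have hYR : ‖p k 1 - p 0 0‖ ≤ ‖p 0 0 - p i0 s‖ / 2 := by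
    rw [hnPQ]; linarith
  have hQR : p i0 s ≠ p k 1 := by
    intro h
    rw [← h] at hYR
    rw [hnPQ] at hYR
    linarith
  have hPR : p 0 0 ≠ p k 1 := by
    intro h
    have h1 : det2 (p k 1 - p 0 0) v = k * det2 u v + det2 (E p u v k 1) v := by
      have h1 : p k 1 - p 0 0 = k * u + v + E p u v k 1 := by simp only [E]; push_cast; ring
      rw [h1, det2_add_left, det2_add_left, det2_nat_left, det2_self]
      ring
    rw [h, sub_self] at h1
    have h2 : det2 0 v = 0 := by simp [det2]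
    rw [h2] at h1
    have e1 := det2_le' hEk G.hv
    have e2 : det2 (E p u v k 1) v = - (k * det2 u v) := by linarith
    rw [e2, abs_neg, abs_mul, Nat.abs_cast] at e1
    have e3 : (k : ℝ) * (6 * (a * b)) ≤ k * |det2 u v| :=
      mul_le_mul_of_nonneg_left h6 (by positivity)
    nlinarith
  have hA := hang 0 0 i0 s k 1 (by omega) (by omega) hi0N hsN hkN (by omega) hPQ hQR hPR
  have hT := thin hA hPQ hYR
  rw [hnPQ] at hT
  have hd : |det2 (p 0 0 - p i0 s) (p k 1 - p 0 0)| = |det2 (p k 1 - p 0 0) (p i0 s - p 0 0)| := by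
    congr 1
    simp only [det2, Complex.sub_re, Complex.sub_im]; ring
  rw [hd] at hT
  have h1 : α * R ^ 2 ≤ α * ‖p i0 s - p 0 0‖ ^ 2 := by
    apply mul_le_mul_of_nonneg_left _ hα
    exact pow_le_pow_left₀ hR0.le hRz 2
  have h2 : Real.pi * |det2 (p k 1 - p 0 0) (p i0 s - p 0 0)| ≤
      Real.pi * (8 * (k + 1) ^ 2 * (a * b)) :=
    mul_le_mul_of_nonneg_left hdet Real.pi_pos.le
  linarith

/-- two rows do not cross -/
theorem noncross (G : Grid p u v a b N) {α : ℝ} (hα : 0 ≤ α) (hang : Big p N α)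
    (k : ℕ) (hk : 1 ≤ k) (R : ℝ) (hR0 : 0 < R) (hΔ : 0 < |det2 u v|)
    (h6 : 6 * (a * b) ≤ |det2 u v|) (hR : 64 * k * (a * b) * b * R ≤ |det2 u v| ^ 2)
    (hR1 : 4 * (k + 1) * b ≤ R) (hR2 : 8 * Real.pi * (k + 1) ^ 2 * (a * b) ≤ α * R ^ 2)
    (s : ℕ) (hs1 : 1 ≤ s) (hs : s * k + 1 ≤ N) :
    |det2 (p k 1 - p 0 0) (p (s * k) s - p 0 0)| < |det2 u v| := by
  induction s, hs1 using Nat.le_induction with
  | base =>
    rw [one_mul, det2_self, abs_zero]
    exact hΔ
  | succ s hs1 ih =>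
    have h1 := ih (le_trans (by nlinarith) hs)
    by_contra hcon
    have hcon' := not_lt.mp hcon
    have h2 := f_step G k s hk (by omega)
    have h3 := f_le G k hk (s + 1) (by omega) (by omega)
    set F := det2 (p k 1 - p 0 0) (p ((s + 1) * k) (s + 1) - p 0 0) with hF
    have hsN : s + 1 ≤ N := le_trans (by nlinarith) hs
    have h4 : |F| ≤ |det2 (p k 1 - p 0 0) (p (s * k) s - p 0 0)| + 4 * (k + 1) ^ 2 * (a * b) := by
      have h3 := abs_sub_abs_le_abs_sub F (det2 (p k 1 - p 0 0) (p (s * k) s - p 0 0))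
      linarith
    have h5 : |F| - |det2 u v| ≤ 4 * (k + 1) ^ 2 * (a * b) := by linarith
    have hsκ : |det2 u v| ≤ ((s + 1 : ℕ) : ℝ) * (4 * (k + 1) ^ 2 * (a * b)) := le_trans hcon' h3
    -- the sign
    have hsign : |F - 1 * det2 u v| = |F| - |det2 u v| ∨ |F - (-1) * det2 u v| = |F| - |det2 u v| := by
      rcases le_total 0 F with hF0 | hF0 <;> rcases le_total 0 (det2 u v) with hD | hD
      · left
        rw [abs_of_nonneg hF0, abs_of_nonneg hD] at *
        rw [one_mul, abs_of_nonneg]; linarith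
      · right
        rw [abs_of_nonneg hF0, abs_of_nonpos hD] at *
        rw [abs_of_nonneg (by linarith)]; ring
      · right
        rw [abs_of_nonpos hF0, abs_of_nonneg hD] at *
        rw [abs_of_nonpos (by linarith)]; ring
      · left
        rw [abs_of_nonpos hF0, abs_of_nonpos hD] at *
        rw [one_mul, abs_of_nonpos (by linarith)]; ring
    have hk1 : 1 ≤ (s + 1) * k := by nlinarith
    rcases hsign with hsg | hsg
    · refine cross_end G hα hang k hk R hR0 hΔ h6 hR hR1 hR2 (s + 1) ((s + 1) * k + 1) 1 (Or.inl rfl)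
        (by omega) hs (by push_cast; ring) hs ?_ (by rw [← hF, hsg]; exact h5) hsκ
      have := E_row G ((s + 1) * k) (s + 1) 1 hs hsN
      simpa using this
    · refine cross_end G hα hang k hk R hR0 hΔ h6 hR hR1 hR2 (s + 1) ((s + 1) * k - 1) (-1)
        (Or.inr rfl) (by omega) hs ?_ (by omega) ?_ (by rw [← hF, hsg]; exact h5) hsκ
      · rw [Nat.cast_sub hk1]; push_cast; ring
      · have := E_row G ((s + 1) * k - 1) (s + 1) 1 (by omega) hsN
        rw [Nat.sub_add_cancel hk1] at this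
        rw [norm_sub_rev]
        simpa using this

end

end Pool.Agent.Lib.MP_a768d2_coG
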