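import Mathlib

/-! # Perturbed grids have a small angle: the geometric part -/

namespace Pool.Agent.Lib.MP_a768d2_coG

noncomputable section

/-- the determinant of two plane vectors -/
def det2 (z w : ℂ) : ℝ := z.re * w.im - z.im * w.re

theorem det2_le (z w : ℂ) : |det2 z w| ≤ ‖z‖ * ‖w‖ := by
  have h : det2 z w = ((starRingEnd ℂ) z * w).im := by
    simp [det2]; ring
  rw [h]
  refine (Complex.abs_im_le_norm _).trans ?_
  rw [norm_mul, Complex.norm_conj]

theorem det2_swap (z w : ℂ) : det2 z w = - det2 w z := by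
  simp only [det2]; ring

/-- If `‖w - v‖ < ‖v‖` the inner product is positive, so the angle is less than `π/2` and
`angle ≤ (π/2) sin angle`. -/
theorem angle_le {v w : ℂ} (hvw : ‖w - v‖ < ‖v‖) (hw : w ≠ 0) :
    InnerProductGeometry.angle v w ≤ Real.pi / 2 * (|det2 v w| / (‖v‖ * ‖w‖)) := by
  have hv : 0 < ‖v‖ := lt_of_le_of_lt (norm_nonneg _) hvw
  have hw' : 0 < ‖w‖ := norm_pos_iff.mpr hw
  have hvw' : 0 < ‖v‖ * ‖w‖ := mul_pos hv hw'
  have hin : inner ℝ v w = v.re * w.re + v.im * w.im := by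
    rw [Complex.inner]; simp; ring
  have hnv : ‖v‖ ^ 2 = v.re ^ 2 + v.im ^ 2 := by
    rw [← Complex.normSq_eq_norm_sq, Complex.normSq_apply]; ring
  have hnw : ‖w‖ ^ 2 = w.re ^ 2 + w.im ^ 2 := by
    rw [← Complex.normSq_eq_norm_sq, Complex.normSq_apply]; ring
  have hnd : ‖w - v‖ ^ 2 = (w.re - v.re) ^ 2 + (w.im - v.im) ^ 2 := by
    rw [← Complex.normSq_eq_norm_sq, Complex.normSq_apply]; simp; ring
  have hpos : 0 < inner ℝ v w := by
    have h1 : ‖w - v‖ ^ 2 < ‖v‖ ^ 2 := by
      have := norm_nonneg (w - v)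
      nlinarith
    rw [hin]
    have h2 : 0 < ‖w‖ ^ 2 := by positivity
    nlinarith
  have hang : InnerProductGeometry.angle v w ≤ Real.pi / 2 := by
    rw [InnerProductGeometry.angle]
    rw [Real.arccos_le_pi_div_two]
    positivity
  have hang0 : 0 ≤ InnerProductGeometry.angle v w := InnerProductGeometry.angle_nonneg _ _
  have hsin := InnerProductGeometry.sin_angle_mul_norm_mul_norm v w
  have hs2 : Real.sqrt (inner ℝ v v * inner ℝ w w - inner ℝ v w * inner ℝ v w) = |det2 v w| := by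
    rw [← Real.sqrt_sq_eq_abs]
    congr 1
    rw [real_inner_self_eq_norm_sq, real_inner_self_eq_norm_sq, hin, hnv, hnw, det2]
    ring
  rw [hs2] at hsin
  have hsin' : Real.sin (InnerProductGeometry.angle v w) = |det2 v w| / (‖v‖ * ‖w‖) := by
    rw [eq_div_iff hvw'.ne']; exact hsin
  have hj := Real.mul_le_sin hang0 hang
  rw [hsin'] at hj
  have hpi := Real.pi_pos
  calc InnerProductGeometry.angle v w
      = Real.pi / 2 * (2 / Real.pi * InnerProductGeometry.angle v w) := by field_simp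
    _ ≤ Real.pi / 2 * (|det2 v w| / (‖v‖ * ‖w‖)) := by
        apply mul_le_mul_of_nonneg_left hj; positivity

/-- thin triangles have a small angle at the far vertex `Q` -/
theorem thin {α : ℝ} {P Q R : ℂ} (hα : α < EuclideanGeometry.angle P Q R)
    (hPQ : P ≠ Q) (h : ‖R - P‖ ≤ ‖P - Q‖ / 2) :
    α * ‖P - Q‖ ^ 2 < Real.pi * |det2 (P - Q) (R - P)| := by
  have hV : 0 < ‖P - Q‖ := norm_pos_iff.mpr (sub_ne_zero.mpr hPQ)
  have hW : ‖P - Q‖ / 2 ≤ ‖R - Q‖ := by
    have h1 : P - Q = (R - Q) - (R - P) := by ring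
    have h2 : ‖P - Q‖ ≤ ‖R - Q‖ + ‖R - P‖ := by
      calc ‖P - Q‖ = ‖(R - Q) - (R - P)‖ := by rw [← h1]
        _ ≤ _ := norm_sub_le _ _
    linarith
  have hW0 : R - Q ≠ 0 := by
    intro h0
    rw [h0, norm_zero] at hW
    linarith
  have hlt : ‖(R - Q) - (P - Q)‖ < ‖P - Q‖ := by
    have : (R - Q) - (P - Q) = R - P := by ring
    rw [this]; linarith
  have ha := angle_le hlt hW0
  have hd : det2 (P - Q) (R - Q) = det2 (P - Q) (R - P) := by
    simp only [det2, Complex.sub_re, Complex.sub_im]; ring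
  rw [hd] at ha
  have hang : EuclideanGeometry.angle P Q R = InnerProductGeometry.angle (P - Q) (R - Q) := rfl
  rw [hang] at hα
  have hR : 0 < ‖R - Q‖ := by linarith
  have hlt2 : α < Real.pi / 2 * (|det2 (P - Q) (R - P)| / (‖P - Q‖ * ‖R - Q‖)) := lt_of_lt_of_le hα ha
  have hle : Real.pi / 2 * (|det2 (P - Q) (R - P)| / (‖P - Q‖ * ‖R - Q‖)) ≤
      Real.pi / 2 * (|det2 (P - Q) (R - P)| / (‖P - Q‖ * (‖P - Q‖ / 2))) := by
    apply mul_le_mul_of_nonneg_left _ (by positivity)
    apply div_le_div_of_nonneg_left (abs_nonneg _) (by positivity)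
    exact mul_le_mul_of_nonneg_left hW hV.le
  have h3 : α < Real.pi / 2 * (|det2 (P - Q) (R - P)| / (‖P - Q‖ * (‖P - Q‖ / 2))) :=
    lt_of_lt_of_le hlt2 hle
  have h4 : Real.pi / 2 * (|det2 (P - Q) (R - P)| / (‖P - Q‖ * (‖P - Q‖ / 2))) * ‖P - Q‖ ^ 2 =
      Real.pi * |det2 (P - Q) (R - P)| := by
    field_simp
  rw [← h4]
  exact mul_lt_mul_of_pos_right h3 (by positivity)

/-- an almost periodic grid: consecutive differences are within `a` of `u` and `v` -/
structure Grid (p : ℕ → ℕ → ℂ) (u v : ℂ) (a b : ℝ) (N : ℕ) : Prop where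
  ha : 0 ≤ a
  hab : a ≤ b
  hu : ‖u‖ ≤ b
  hv : ‖v‖ ≤ b
  hx : ∀ i j, i < N → j ≤ N → ‖p (i + 1) j - p i j - u‖ ≤ a
  hy : ∀ i j, i ≤ N → j < N → ‖p i (j + 1) - p i j - v‖ ≤ a

/-- the displacement of a grid point -/
def E (p : ℕ → ℕ → ℂ) (u v : ℂ) (i j : ℕ) : ℂ := p i j - p 0 0 - i * u - j * v

variable {p : ℕ → ℕ → ℂ} {u v : ℂ} {a b : ℝ} {N : ℕ}

theorem E_row (G : Grid p u v a b N) (i j d : ℕ) (hi : i + d ≤ N) (hj : j ≤ N) :
    ‖E p u v (i + d) j - E p u v i j‖ ≤ a * d := by
  induction d with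
  | zero => simp
  | succ d ih =>
    have h1 := ih (by omega)
    have h2 := G.hx (i + d) j (by omega) hj
    have h3 : E p u v (i + (d + 1)) j - E p u v i j =
        (p (i + d + 1) j - p (i + d) j - u) + (E p u v (i + d) j - E p u v i j) := by
      simp only [E, ← add_assoc]; push_cast; ring
    rw [h3]
    refine (norm_add_le _ _).trans ?_
    push_cast
    linarith

theorem E_col (G : Grid p u v a b N) (i j d : ℕ) (hi : i ≤ N) (hj : j + d ≤ N) :
    ‖E p u v i (j + d) - E p u v i j‖ ≤ a * d := by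
  induction d with
  | zero => simp
  | succ d ih =>
    have h1 := ih (by omega)
    have h2 := G.hy i (j + d) hi (by omega)
    have h3 : E p u v i (j + (d + 1)) - E p u v i j =
        (p i (j + d + 1) - p i (j + d) - v) + (E p u v i (j + d) - E p u v i j) := by
      simp only [E, ← add_assoc]; push_cast; ring
    rw [h3]
    refine (norm_add_le _ _).trans ?_
    push_cast
    linarith

theorem E_zero : E p u v 0 0 = 0 := by simp [E]

theorem p_eq (i j : ℕ) : p i j = p 0 0 + (i * u + j * v + E p u v i j) := by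
  simp only [E]; ring

/-- north-east difference -/
theorem E_ne (G : Grid p u v a b N) (i j d e : ℕ) (hi : i + d ≤ N) (hj : j + e ≤ N) :
    ‖E p u v (i + d) (j + e) - E p u v i j‖ ≤ a * (d + e) := by
  have h1 := E_row G i (j + e) d hi hj
  have h2 := E_col G i j e (by omega) hj
  have h3 : E p u v (i + d) (j + e) - E p u v i j =
      (E p u v (i + d) (j + e) - E p u v i (j + e)) + (E p u v i (j + e) - E p u v i j) := by ring
  rw [h3]
  refine (norm_add_le _ _).trans ?_
  linarith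

/-- south-east difference -/
theorem E_se (G : Grid p u v a b N) (i j d e : ℕ) (hi : i + d ≤ N) (hj : j + e ≤ N) :
    ‖E p u v (i + d) j - E p u v i (j + e)‖ ≤ a * (d + e) := by
  have h1 := E_row G i j d hi (by omega)
  have h2 := E_col G i j e (by omega) hj
  have h3 : E p u v (i + d) j - E p u v i (j + e) =
      (E p u v (i + d) j - E p u v i j) - (E p u v i (j + e) - E p u v i j) := by ring
  rw [h3]
  refine (norm_sub_le _ _).trans ?_
  linarith

theorem E_le (G : Grid p u v a b N) (i j : ℕ) (hi : i ≤ N) (hj : j ≤ N) :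
    ‖E p u v i j‖ ≤ a * (i + j) := by
  have h := E_ne G 0 0 i j (by omega) (by omega)
  rw [E_zero, sub_zero] at h
  simpa using h

end

end Pool.Agent.Lib.MP_a768d2_coG
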